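import Mathlib

/-!
# MP_45223c_al: the evaluation ideal of the perfect closure and the non-Frobenius-split locus

Main point: if `κ : F_* R → R` is `R`-linear and `s = κ(1)`, then `T = κ(s^(p-2) · -)` fixes `s^2`, so
`x^(1/p^e) ↦ T^e (s^2 x)` is a well-defined `R`-linear map `R_perf → R` sending `1` to `s^2`. Hence
`R_perf` may be replaced by `F_* R`, whose `R`-linear maps localize well in the `F`-finite case and,
more generally, when `1` lies in a finitely generated summand of `F_* R`; the latter holds for
algebras essentially of finite type over a field.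
-/

namespace Pool.Agent.Results.MP_45223c_al.FFinite

/-- `κ : A → A` is (the additive map underlying) an `A`-linear map `F_* A → A`. -/
def IsFrobMap (p : ℕ) (A : Type*) [CommRing A] (κ : A →+ A) : Prop :=
  ∀ r x : A, κ (r ^ p * x) = r * κ x

/-- `A` is Frobenius split: the Frobenius `A → F_* A` has an `A`-linear left inverse. -/
def FrobeniusSplit (p : ℕ) (A : Type*) [CommRing A] : Prop :=
  ∃ κ : A →+ A, IsFrobMap p A κ ∧ ∀ a : A, κ (a ^ p) = a

variable (p : ℕ) [Fact p.Prime] (R : Type*) [CommRing R] [CharP R p]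

/-- The evaluation ideal `{φ(1) : φ ∈ Hom_R(R_perf, R)}`. -/
noncomputable def evalIdeal : Ideal R where
  carrier := {a | ∃ φ : PerfectClosure R p →+ R,
    (∀ (r : R) (x : PerfectClosure R p), φ (PerfectClosure.of R p r * x) = r * φ x) ∧ φ 1 = a}
  add_mem' := by
    rintro a b ⟨φ, hφ, rfl⟩ ⟨ψ, hψ, rfl⟩
    exact ⟨φ + ψ, fun r x => by simp [hφ, hψ, mul_add], rfl⟩
  zero_mem' := ⟨0, fun r x => by simp, rfl⟩
  smul_mem' := by
    rintro c a ⟨φ, hφ, rfl⟩
    refine ⟨(AddMonoidHom.mulLeft c).comp φ, fun r x => ?_, rfl⟩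
    simp only [AddMonoidHom.comp_apply, AddMonoidHom.coe_mulLeft, hφ]
    ring

/-- The ideal `{κ(1) : κ ∈ Hom_R(F_* R, R)}`. -/
def traceIdeal : Ideal R where
  carrier := {a | ∃ κ : R →+ R, IsFrobMap p R κ ∧ κ 1 = a}
  add_mem' := by
    rintro a b ⟨φ, hφ, rfl⟩ ⟨ψ, hψ, rfl⟩
    refine ⟨φ + ψ, fun r x => ?_, rfl⟩
    simp [hφ r x, hψ r x, mul_add]
  zero_mem' := ⟨0, fun r x => by simp, rfl⟩
  smul_mem' := by
    rintro c a ⟨φ, hφ, rfl⟩
    refine ⟨(AddMonoidHom.mulLeft c).comp φ, fun r x => ?_, rfl⟩
    simp only [AddMonoidHom.comp_apply, AddMonoidHom.coe_mulLeft, hφ r x]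
    ring

variable {p R}

lemma iterate_linear (T : R →+ R) (hT : IsFrobMap p R T) (n : ℕ) (r x : R) :
    T^[n] ((frobenius R p)^[n] r * x) = r * T^[n] x := by
  induction n generalizing r x with
  | zero => rfl
  | succ n ih =>
    rw [Function.iterate_succ_apply, Function.iterate_succ_apply', frobenius_def, hT,
      ih, Function.iterate_succ_apply]

lemma iterate_add (T : R →+ R) (n : ℕ) (x y : R) : T^[n] (x + y) = T^[n] x + T^[n] y := by
  induction n generalizing x y with
  | zero => rfl
  | succ n ih => rw [Function.iterate_succ_apply, map_add, ih]; rfl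

lemma iterate_fixed (T : R →+ R) (g : R) (hg : T g = g) (n : ℕ) : T^[n] g = g := by
  induction n with
  | zero => rfl
  | succ n ih => rw [Function.iterate_succ_apply, hg, ih]

/-- A Frobenius map `T : F_* R → R` with a fixed element `g` gives an `R`-linear map `R_perf → R`
sending `1` to `g`. -/
lemma fixed_mem_evalIdeal (T : R →+ R) (hT : IsFrobMap p R T) (g : R) (hg : T g = g) :
    g ∈ evalIdeal p R := by
  let f : ℕ × R → R := fun x => T^[x.1] (x.2 * g)
  have hf : ∀ x y, PerfectClosure.R R p x y → f x = f y := by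
    rintro _ _ ⟨n, x⟩
    change T^[n] (x * g) = T^[n + 1] (frobenius R p x * g)
    rw [Function.iterate_succ_apply, frobenius_def, hT, hg]
  let φ : PerfectClosure R p →+ R :=
    { toFun := fun x => PerfectClosure.liftOn x f hf
      map_zero' := by
        rw [PerfectClosure.zero_def, PerfectClosure.liftOn_mk]
        simp [f]
      map_add' := by
        intro x y
        obtain ⟨⟨m, x⟩, rfl⟩ := PerfectClosure.mk_surjective R p x
        obtain ⟨⟨n, y⟩, rfl⟩ := PerfectClosure.mk_surjective R p y
        rw [PerfectClosure.mk_add_mk, PerfectClosure.liftOn_mk, PerfectClosure.liftOn_mk,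
          PerfectClosure.liftOn_mk]
        simp only [f]
        rw [add_mul, iterate_add]
        congr 1
        · rw [Function.iterate_add_apply, iterate_linear T hT, iterate_fixed T g hg]
        · rw [add_comm m n, Function.iterate_add_apply, iterate_linear T hT,
            iterate_fixed T g hg] }
  have hφ : ∀ x : ℕ × R, φ (PerfectClosure.mk R p x) = f x := fun x => rfl
  refine ⟨φ, ?_, ?_⟩
  · intro r x
    obtain ⟨⟨n, x⟩, rfl⟩ := PerfectClosure.mk_surjective R p x
    rw [PerfectClosure.of_apply, PerfectClosure.mk_mul_mk, hφ, hφ]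
    simp only [f, zero_add, Function.iterate_zero, id]
    rw [mul_assoc, iterate_linear T hT]
  · rw [PerfectClosure.one_def, hφ]
    simp [f]

/-- If `s = κ(1)` for some `κ : F_* R → R`, then `s ^ 2 = φ(1)` for some `φ : R_perf → R`. -/
lemma sq_mem_evalIdeal {s : R} (hs : s ∈ traceIdeal p R) : s ^ 2 ∈ evalIdeal p R := by
  obtain ⟨κ, hκ, rfl⟩ := hs
  have hp : 2 ≤ p := (Fact.out : p.Prime).two_le
  refine fixed_mem_evalIdeal (κ.comp (AddMonoidHom.mulLeft ((κ 1) ^ (p - 2)))) ?_ _ ?_
  · intro r x
    simp only [AddMonoidHom.comp_apply, AddMonoidHom.coe_mulLeft]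
    rw [mul_left_comm, hκ]
  · simp only [AddMonoidHom.comp_apply, AddMonoidHom.coe_mulLeft]
    rw [← pow_add, Nat.sub_add_cancel hp]
    have := hκ (κ 1) 1
    rw [mul_one] at this
    rw [this, sq]

lemma evalIdeal_le_traceIdeal : evalIdeal p R ≤ traceIdeal p R := by
  rintro _ ⟨φ, hφ, rfl⟩
  let κ : R →+ R :=
    { toFun := fun x => φ (PerfectClosure.mk R p (1, x))
      map_zero' := by simp
      map_add' := by
        intro x y
        rw [← map_add]
        congr 1
        rw [PerfectClosure.mk_add_mk]
        simp only [Function.iterate_one, ← map_add]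
        exact (PerfectClosure.mk_succ_pow R p 1 (x + y)).symm }
  refine ⟨κ, ?_, ?_⟩
  · intro r x
    change φ (PerfectClosure.mk R p (1, r ^ p * x)) = r * φ (PerfectClosure.mk R p (1, x))
    rw [← hφ, PerfectClosure.of_apply, PerfectClosure.mk_mul_mk]
    simp [frobenius_def]
  · change φ (PerfectClosure.mk R p (1, 1)) = φ 1
    congr 1
    rw [PerfectClosure.one_def]
    have := PerfectClosure.mk_succ_pow R p 0 (1 : R)
    simpa using this

lemma le_prime_iff (P : Ideal R) [P.IsPrime] : evalIdeal p R ≤ P ↔ traceIdeal p R ≤ P := by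
  constructor
  · intro h s hs
    have h1 := h (sq_mem_evalIdeal hs)
    exact Ideal.IsPrime.mem_of_pow_mem inferInstance 2 h1
  · exact fun h => evalIdeal_le_traceIdeal.trans h


/-- `1 ∈ F_* R` lies in a finitely generated submodule of `F_* R` which is the image of an
`R`-linear endomorphism of `F_* R` fixing `1` (for instance, in a finitely generated direct summand
of `F_* R`). -/
def UnitInFinSummand (p : ℕ) (R : Type*) [CommRing R] : Prop :=
  ∃ ρ : R →+ R, (∀ r x : R, ρ (r ^ p * x) = r ^ p * ρ x) ∧ ρ 1 = 1 ∧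
    ∃ s : Finset R, ∀ x : R,
      ρ x ∈ AddSubmonoid.closure {y : R | ∃ a : R, ∃ i ∈ s, y = a ^ p * i}

omit [CharP R p] in
/-- One direction: if `P` does not contain the trace ideal then `R_P` is Frobenius split. -/
lemma frobeniusSplit_of_not_le [IsDomain R] (P : Ideal R) [P.IsPrime]
    (h : ¬ traceIdeal p R ≤ P) : FrobeniusSplit p (Localization.AtPrime P) := by
  have hp : 2 ≤ p := (Fact.out : p.Prime).two_le
  obtain ⟨c, ⟨κ, hκ, hκ1⟩, hcP⟩ := SetLike.not_le_iff_exists.1 h
  let c' : P.primeCompl := ⟨c, hcP⟩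
  have hM : ∀ w : P.primeCompl, (w : R) ≠ 0 := fun w hw => w.2 (by rw [hw]; exact P.zero_mem)
  let f : R → P.primeCompl → Localization.AtPrime P := fun a t =>
    Localization.mk (κ ((t : R) ^ (p - 1) * a)) (t * c')
  have hf : ∀ {a b : R} {t u : P.primeCompl}, Localization.r P.primeCompl (a, t) (b, u) →
      f a t = f b u := by
    intro a b t u hr
    rw [Localization.r_iff_exists] at hr
    obtain ⟨w, hw⟩ := hr
    have hab : (u : R) * a = (t : R) * b := mul_left_cancel₀ (hM w) hw
    simp only [f]
    rw [Localization.mk_eq_mk_iff, Localization.r_iff_exists]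
    refine ⟨1, ?_⟩
    have h1 := hκ (u : R) ((t : R) ^ (p - 1) * a)
    have h2 := hκ (t : R) ((u : R) ^ (p - 1) * b)
    have h3 : (u : R) ^ p * ((t : R) ^ (p - 1) * a) = (t : R) ^ p * ((u : R) ^ (p - 1) * b) := by
      obtain ⟨q, rfl⟩ : ∃ q, p = q + 1 := ⟨p - 1, by omega⟩
      simp only [Nat.add_sub_cancel]
      calc (u : R) ^ (q + 1) * ((t : R) ^ q * a) = (u : R) ^ q * (t : R) ^ q * ((u : R) * a) := by
            ring
        _ = (u : R) ^ q * (t : R) ^ q * ((t : R) * b) := by rw [hab]
        _ = _ := by ring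
    rw [h3, h2] at h1
    simp only [Submonoid.coe_mul, OneMemClass.coe_one, one_mul]
    calc (u : R) * (c' : R) * κ ((t : R) ^ (p - 1) * a)
        = (c' : R) * ((u : R) * κ ((t : R) ^ (p - 1) * a)) := by ring
      _ = (c' : R) * ((t : R) * κ ((u : R) ^ (p - 1) * b)) := by rw [h1]
      _ = _ := by ring
  let F : Localization.AtPrime P → Localization.AtPrime P := fun z => Localization.liftOn z f hf
  have hF : ∀ a t, F (Localization.mk a t) = Localization.mk (κ ((t : R) ^ (p - 1) * a)) (t * c') :=
    fun a t => rfl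
  have hmk : ∀ (x : R) (a b : P.primeCompl), (Localization.mk ((a : R) * x) (a * b) :
      Localization.AtPrime P) = Localization.mk x b := by
    intro x a b
    rw [Localization.mk_eq_mk_iff, Localization.r_iff_exists]
    exact ⟨1, by simp only [Submonoid.coe_mul, OneMemClass.coe_one, one_mul]; ring⟩
  let Ψ : Localization.AtPrime P →+ Localization.AtPrime P :=
    { toFun := F
      map_zero' := by
        rw [← Localization.mk_zero (1 : P.primeCompl), hF]
        simp [Localization.mk_zero]
      map_add' := by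
        intro x y
        induction x using Localization.ind with | _ x => ?_
        induction y using Localization.ind with | _ y => ?_
        obtain ⟨a, t⟩ := x
        obtain ⟨b, u⟩ := y
        rw [Localization.add_mk, hF, hF, hF, Localization.add_mk]
        have h1 := hκ (u : R) ((t : R) ^ (p - 1) * a)
        have h2 := hκ (t : R) ((u : R) ^ (p - 1) * b)
        have h3 : ((t * u : P.primeCompl) : R) ^ (p - 1) * ((t : R) * b + (u : R) * a) =
            (u : R) ^ p * ((t : R) ^ (p - 1) * a) + (t : R) ^ p * ((u : R) ^ (p - 1) * b) := by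
          obtain ⟨q, rfl⟩ : ∃ q, p = q + 1 := ⟨p - 1, by omega⟩
          simp only [Nat.add_sub_cancel, Submonoid.coe_mul]
          ring
        rw [h3, map_add, h1, h2, Localization.mk_eq_mk_iff, Localization.r_iff_exists]
        refine ⟨1, ?_⟩
        simp only [Submonoid.coe_mul, OneMemClass.coe_one, one_mul]
        ring }
  have hlin : ∀ z w : Localization.AtPrime P, Ψ (z ^ p * w) = z * Ψ w := by
    intro z w
    induction z using Localization.ind with | _ z => ?_
    induction w using Localization.ind with | _ w => ?_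
    obtain ⟨r, t⟩ := z
    obtain ⟨a, u⟩ := w
    change F (Localization.mk r t ^ p * Localization.mk a u) = Localization.mk r t * F (Localization.mk a u)
    rw [Localization.mk_pow, Localization.mk_mul, hF, hF, Localization.mk_mul]
    have h1 := hκ ((t : R) ^ (p - 1) * r) ((u : R) ^ (p - 1) * a)
    have h3 : ((t ^ p * u : P.primeCompl) : R) ^ (p - 1) * (r ^ p * a) =
        ((t : R) ^ (p - 1) * r) ^ p * ((u : R) ^ (p - 1) * a) := by
      simp only [Submonoid.coe_mul, SubmonoidClass.coe_pow]
      rw [mul_pow, mul_pow, ← pow_mul, ← pow_mul, Nat.mul_comm]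
      ring
    rw [h3, h1, Localization.mk_eq_mk_iff, Localization.r_iff_exists]
    refine ⟨1, ?_⟩
    simp only [Submonoid.coe_mul, OneMemClass.coe_one, one_mul, SubmonoidClass.coe_pow]
    obtain ⟨q, rfl⟩ : ∃ q, p = q + 1 := ⟨p - 1, by omega⟩
    simp only [Nat.add_sub_cancel]
    ring
  refine ⟨Ψ, hlin, fun a => ?_⟩
  have h1 : Ψ 1 = 1 := by
    change F 1 = 1
    rw [← Localization.mk_one, hF]
    simp only [OneMemClass.coe_one, one_pow, one_mul, hκ1]
    exact (Localization.mk_self c').trans Localization.mk_one.symm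
  have := hlin a 1
  rwa [mul_one, h1, mul_one] at this

omit [Fact p.Prime] [CharP R p] in
/-- Other direction, when `1` lies in a finitely generated summand of `F_* R`. -/
lemma not_le_of_frobeniusSplit [IsDomain R] (hR : UnitInFinSummand p R) (P : Ideal R) [P.IsPrime]
    (h : FrobeniusSplit p (Localization.AtPrime P)) : ¬ traceIdeal p R ≤ P := by
  classical
  obtain ⟨ρ, hρ, hρ1, s, hs⟩ := hR
  obtain ⟨ψ, hψ, hψ1⟩ := h
  have hinj : Function.Injective (algebraMap R (Localization.AtPrime P)) :=
    IsLocalization.injective _ P.primeCompl_le_nonZeroDivisors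
  obtain ⟨b, hb⟩ := IsLocalization.exist_integer_multiples_of_finset P.primeCompl
    (s.image (fun i => ψ (algebraMap R (Localization.AtPrime P) i)))
  have hex : ∀ x : R, ∃ y : R, algebraMap R (Localization.AtPrime P) y =
      algebraMap R (Localization.AtPrime P) b * ψ (algebraMap R (Localization.AtPrime P) (ρ x)) := by
    intro x
    have hx := hs x
    generalize ρ x = y at hx
    induction hx using AddSubmonoid.closure_induction with
    | mem y hy =>
      obtain ⟨a, i, hi, rfl⟩ := hy
      obtain ⟨z, hz⟩ := hb _ (Finset.mem_image_of_mem _ hi)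
      refine ⟨a * z, ?_⟩
      rw [map_mul, hz, Algebra.smul_def, map_mul, map_pow, hψ]
      ring
    | zero => exact ⟨0, by simp⟩
    | add y z _ _ hy hz =>
      obtain ⟨y', hy'⟩ := hy
      obtain ⟨z', hz'⟩ := hz
      exact ⟨y' + z', by rw [map_add, hy', hz', map_add, map_add, mul_add]⟩
  choose g hg using hex
  let κ : R →+ R :=
    { toFun := g
      map_zero' := by
        apply hinj
        rw [hg, map_zero, map_zero, map_zero, mul_zero]
      map_add' := by
        intro x y
        apply hinj
        rw [hg, map_add, map_add, map_add, map_add, hg, hg, mul_add] }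
  intro hle
  apply b.2
  apply hle
  refine ⟨κ, ?_, ?_⟩
  · intro r x
    apply hinj
    change algebraMap _ _ (g (r ^ p * x)) = algebraMap _ _ (r * g x)
    rw [hg, hρ, map_mul, map_pow, hψ, map_mul, hg]
    ring
  · apply hinj
    change algebraMap _ _ (g 1) = _
    rw [hg, hρ1, map_one]
    have h1 := hψ1 1
    rw [one_pow] at h1
    rw [h1, mul_one]

/-- If `R` is `F`-finite then `F_* R` itself is a finitely generated summand. -/
lemma unitInFinSummand_of_finite (h : (frobenius R p).Finite) : UnitInFinSummand p R := by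
  refine ⟨AddMonoidHom.id R, fun r x => rfl, rfl, ?_⟩
  obtain ⟨s, hs⟩ := @Module.Finite.fg_top R R _ _ (frobenius R p).toAlgebra.toModule h
  refine ⟨s, fun x => ?_⟩
  have hx : x ∈ @Submodule.span R R _ _ (frobenius R p).toAlgebra.toModule (s : Set R) := by
    rw [hs]
    exact @Submodule.mem_top R R _ _ (frobenius R p).toAlgebra.toModule x
  obtain ⟨f, _, hf⟩ := (@Submodule.mem_span_finset R R _ _ (frobenius R p).toAlgebra.toModule
    s x).1 hx
  have hf' : ∑ i ∈ s, f i ^ p * i = x := hf
  change x ∈ _
  rw [← hf']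
  exact AddSubmonoid.sum_mem _ fun i hi => AddSubmonoid.subset_closure ⟨f i, i, hi, rfl⟩


section FiniteType

open MvPolynomial

variable {K : Type*} [Field K] [CharP K p]

/-- coefficientwise application of an additive map. -/
noncomputable def coeffMap {σ : Type*} (π : K →+ K) : MvPolynomial σ K →+ MvPolynomial σ K :=
  ((basisMonomials σ K).repr.symm.toLinearMap.toAddMonoidHom).comp
    ((Finsupp.mapRange.addMonoidHom π).comp
      (basisMonomials σ K).repr.toLinearMap.toAddMonoidHom)

omit [CharP K p] in
lemma coeffMap_monomial {σ : Type*} (π : K →+ K) (m : σ →₀ ℕ) (c : K) :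
    coeffMap π (monomial m c) = monomial m (π c) := by
  have h : ∀ c : K, (basisMonomials σ K).repr.symm (Finsupp.single m c) = monomial m c := by
    intro c
    rw [Module.Basis.repr_symm_single, coe_basisMonomials, smul_monomial, smul_eq_mul, mul_one]
  have h' : ∀ c : K, (basisMonomials σ K).repr (monomial m c) = Finsupp.single m c := by
    intro c
    rw [← h, LinearEquiv.apply_symm_apply]
  change (basisMonomials σ K).repr.symm (Finsupp.mapRange π (map_zero π)
    ((basisMonomials σ K).repr (monomial m c))) = _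
  rw [h', Finsupp.mapRange_single, h]

omit [CharP K p] in
lemma coeffMap_mul {σ : Type*} (π : K →+ K) (S : Set K) (hS : ∀ a ∈ S, ∀ c, π (a * c) = a * π c)
    (g : MvPolynomial σ K) (hg : ∀ m, g.coeff m ∈ S) (h : MvPolynomial σ K) :
    coeffMap π (g * h) = g * coeffMap π h := by
  induction h using MvPolynomial.induction_on' with
  | monomial m' c =>
    conv_lhs => rw [g.as_sum]
    conv_rhs => rw [g.as_sum]
    rw [Finset.sum_mul, Finset.sum_mul, map_sum]
    refine Finset.sum_congr rfl fun m _ => ?_
    rw [coeffMap_monomial, monomial_mul, monomial_mul, coeffMap_monomial, hS _ (hg m)]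
  | add a b ha hb => rw [mul_add, map_add, ha, hb, map_add, mul_add]


lemma coeff_pow_mem {σ : Type*} (g : MvPolynomial σ K) (S : AddSubmonoid K)
    (hS : ∀ c : K, c ^ p ∈ S) (m : σ →₀ ℕ) : (g ^ p).coeff m ∈ S := by
  classical
  have hp : p.Prime := Fact.out
  have : ∀ g : MvPolynomial σ K, ∀ m, (g ^ p).coeff m ∈ S := by
    intro g
    induction g using MvPolynomial.induction_on' with
    | monomial m' c =>
      intro m
      rw [monomial_pow, coeff_monomial]
      split_ifs
      · exact hS c
      · exact S.zero_mem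
    | add a b ha hb =>
      intro m
      rw [add_pow_char, coeff_add]
      exact S.add_mem (ha m) (hb m)
  exact this g m

omit [CharP R p] in
/-- Every finitely generated algebra over a field satisfies `UnitInFinSummand`. -/
lemma unitInFinSummand_of_surjective {n : ℕ} (f : MvPolynomial (Fin n) K →+* R)
    (hf : Function.Surjective f) : UnitInFinSummand p R := by
  classical
  have hp : p.Prime := Fact.out
  have hp0 : 0 < p := hp.pos
  -- finitely many generators of the kernel
  obtain ⟨G, hG⟩ : (RingHom.ker f).FG := IsNoetherian.noetherian _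
  let T : Set K := ⋃ g ∈ G, (g.coeff '' (g.support : Set (Fin n →₀ ℕ)))
  have hT : T.Finite := by
    refine Set.Finite.biUnion G.finite_toSet fun g _ => ?_
    exact (g.support.finite_toSet).image _
  let Kp : Subfield K := (frobenius K p).fieldRange
  have hKp : ∀ c : K, c ^ p ∈ Kp := fun c => ⟨c, rfl⟩
  have hint : ∀ x : K, IsIntegral Kp x := by
    intro x
    refine IsIntegral.of_pow hp0 ?_
    exact (isIntegral_algebraMap (R := Kp) (A := K) (x := ⟨x ^ p, hKp x⟩))
  have : Finite T := hT
  let K' : IntermediateField Kp K := IntermediateField.adjoin Kp T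
  have hfd : FiniteDimensional Kp K' := IntermediateField.finiteDimensional_adjoin
    (fun x _ => hint x)
  obtain ⟨π, hπ⟩ := (Algebra.linearMap K' K).exists_leftInverse_of_injective
    (LinearMap.ker_eq_bot.2 (FaithfulSMul.algebraMap_injective K' K))
  let π' : K →+ K := (K'.val.toRingHom.toAddMonoidHom).comp π.toAddMonoidHom
  have hπ'lin : ∀ a ∈ (K' : Set K), ∀ c, π' (a * c) = a * π' c := by
    intro a ha c
    have h := π.map_smul (⟨a, ha⟩ : K') c
    change ((π (a * c) : K') : K) = a * ((π c : K') : K)
    have h2 : (⟨a, ha⟩ : K') • c = a * c := rfl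
    rw [← h2, h]
    rfl
  have hπ'1 : π' 1 = 1 := by
    have h := LinearMap.congr_fun hπ (1 : K')
    have h2 : π 1 = 1 := by simpa using h
    change ((π 1 : K') : K) = 1
    rw [h2]
    rfl
  have hπ'mem : ∀ c, π' c ∈ K' := fun c => (π c).2
  let Θ := coeffMap (σ := Fin n) π'
  have hΘpow : ∀ g h : MvPolynomial (Fin n) K, Θ (g ^ p * h) = g ^ p * Θ h := by
    intro g h
    refine coeffMap_mul π' (K' : Set K) hπ'lin _ ?_ h
    intro m
    refine coeff_pow_mem g K'.toSubfield.toAddSubgroup.toAddSubmonoid ?_ m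
    intro c
    exact K'.algebraMap_mem ⟨c ^ p, hKp c⟩
  have hΘG : ∀ g ∈ G, ∀ h, Θ (h * g) = g * Θ h := by
    intro g hg h
    rw [mul_comm]
    refine coeffMap_mul π' (K' : Set K) hπ'lin _ ?_ h
    intro m
    by_cases hm : g.coeff m = 0
    · rw [hm]; exact K'.zero_mem
    · refine IntermediateField.subset_adjoin Kp T ?_
      exact Set.mem_biUnion (show g ∈ (G : Set _) from hg) ⟨m, by simpa using hm, rfl⟩
  have hΘI : ∀ x ∈ RingHom.ker f, ∀ h, Θ (h * x) ∈ RingHom.ker f := by
    intro x hx
    rw [← hG] at hx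
    induction hx using Submodule.span_induction with
    | mem g hg =>
      intro h
      rw [hΘG g hg h]
      exact Ideal.mul_mem_right _ _ (hG ▸ Submodule.subset_span hg)
    | zero => intro h; rw [mul_zero, map_zero]; exact Ideal.zero_mem _
    | add a b _ _ ha hb => intro h; rw [mul_add, map_add]; exact Ideal.add_mem _ (ha h) (hb h)
    | smul c a _ ha => intro h; rw [smul_eq_mul, ← mul_assoc]; exact ha (h * c)
  choose sec hsec using hf
  have hρ : ∀ h, f (Θ (sec (f h))) = f (Θ h) := by
    intro h
    have h1 : sec (f h) - h ∈ RingHom.ker f := by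
      rw [RingHom.mem_ker, map_sub, hsec, sub_self]
    have h2 := hΘI _ h1 1
    rw [one_mul, map_sub, RingHom.mem_ker, map_sub, sub_eq_zero] at h2
    exact h2
  let ρ : R →+ R :=
    { toFun := fun x => f (Θ (sec x))
      map_zero' := by
        have h := hρ 0
        rw [map_zero, map_zero, map_zero] at h
        exact h
      map_add' := by
        intro x y
        have h := hρ (sec x + sec y)
        rw [map_add, hsec, hsec, map_add, map_add] at h
        exact h }
  have hρ' : ∀ h, ρ (f h) = f (Θ h) := hρ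
  refine ⟨ρ, ?_, ?_, ?_⟩
  · intro r x
    rw [← hsec r, ← hsec x, ← map_pow, ← map_mul, hρ', hρ', hΘpow, map_mul]
  · rw [← map_one f, hρ']
    congr 1
    change coeffMap π' (monomial 0 1) = monomial 0 1
    rw [coeffMap_monomial, hπ'1]
  · let e := Module.finBasis Kp K'
    let s : Finset R := Finset.univ.image
      (fun q : Fin (Module.finrank Kp K') × (Fin n → Fin p) =>
        f (monomial (Finsupp.equivFunOnFinite.symm (fun i => (q.2 i : ℕ))) ((e q.1 : K') : K)))
    refine ⟨s, ?_⟩
    set Cl := AddSubmonoid.closure {y : R | ∃ a : R, ∃ i ∈ s, y = a ^ p * i} with hCl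
    have hmon : ∀ (m : Fin n →₀ ℕ) (b : K), b ∈ K' → f (monomial m b) ∈ Cl := by
      intro m b hb
      have hb' : b = ∑ j, ((e.repr ⟨b, hb⟩ j : Kp) : K) * ((e j : K') : K) := by
        have h := e.sum_repr ⟨b, hb⟩
        have h2 := congrArg (fun z : K' => (z : K)) h
        refine h2.symm.trans ?_
        push_cast
        refine Finset.sum_congr rfl fun j _ => ?_
        rfl
      rw [hb', map_sum, map_sum]
      refine AddSubmonoid.sum_mem _ fun j _ => ?_
      obtain ⟨c, hc⟩ := (e.repr ⟨b, hb⟩ j).2
      have hc' : c ^ p = ((e.repr ⟨b, hb⟩ j : Kp) : K) := hc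
      rw [← hc']
      refine AddSubmonoid.subset_closure ⟨f (monomial (Finsupp.equivFunOnFinite.symm
        (fun i => m i / p)) c), _, Finset.mem_image_of_mem _ (Finset.mem_univ
          (j, fun i => ⟨m i % p, Nat.mod_lt _ hp0⟩)), ?_⟩
      have hm : m = p • (Finsupp.equivFunOnFinite.symm (fun i => m i / p)) +
          Finsupp.equivFunOnFinite.symm (fun i => m i % p) := by
        ext i
        simp [Nat.div_add_mod]
      rw [← map_pow, ← map_mul, monomial_pow, monomial_mul, ← hm]
    intro x
    change f (Θ (sec x)) ∈ Cl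
    have hx : ∀ h : MvPolynomial (Fin n) K, f (Θ h) ∈ Cl := by
      intro h
      induction h using MvPolynomial.induction_on' with
      | monomial m c =>
        change f (coeffMap π' _) ∈ Cl
        rw [coeffMap_monomial]
        exact hmon m _ (hπ'mem c)
      | add a b ha hb => rw [map_add, map_add]; exact Cl.add_mem ha hb
    exact hx _

end FiniteType


section Localize

/-- `UnitInFinSummand` passes to localizations (of domains). -/
lemma unitInFinSummand_localization {R₀ : Type*} [CommRing R₀] (h0 : UnitInFinSummand p R₀)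
    (W : Submonoid R₀) (R : Type*) [CommRing R] [Algebra R₀ R] [IsLocalization W R]
    (hinj : Function.Injective (algebraMap R₀ R)) : UnitInFinSummand p R := by
  classical
  have hp : p.Prime := Fact.out
  obtain ⟨ρ, hρ, hρ1, s, hs⟩ := h0
  let ι := algebraMap R₀ R
  let rel : R → R → Prop := fun z w => ∃ t ∈ W, ∃ y : R₀, ι t ^ p * z = ι y ∧ ι t ^ p * w = ι (ρ y)
  have hunit : ∀ t ∈ W, IsUnit (ι t) := fun t ht => IsLocalization.map_units R (⟨t, ht⟩ : W)
  have hex : ∀ z : R, ∃ w : R, rel z w ∧
      w ∈ AddSubmonoid.closure {y : R | ∃ a : R, ∃ i ∈ s.image ι, y = a ^ p * i} := by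
    intro z
    obtain ⟨⟨x, t⟩, hx⟩ := IsLocalization.surj W z
    have hx' : z * ι (t : R₀) = ι x := hx
    obtain ⟨v, hv⟩ := (hunit t t.2).exists_right_inv
    have hz : ι (t : R₀) ^ p * z = ι (x * (t : R₀) ^ (p - 1)) := by
      obtain ⟨q, rfl⟩ : ∃ q, p = q + 1 := ⟨p - 1, by have := hp.pos; omega⟩
      rw [Nat.add_sub_cancel, map_mul, map_pow, ← hx']
      ring
    refine ⟨v ^ p * ι (ρ (x * (t : R₀) ^ (p - 1))), ⟨t, t.2, _, hz, ?_⟩, ?_⟩
    · rw [← mul_assoc, ← mul_pow, hv, one_pow, one_mul]
    · have h1 := hs (x * (t : R₀) ^ (p - 1))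
      generalize ρ (x * (t : R₀) ^ (p - 1)) = y at h1
      induction h1 using AddSubmonoid.closure_induction with
      | mem y hy =>
        obtain ⟨a, i, hi, rfl⟩ := hy
        refine AddSubmonoid.subset_closure ⟨v * ι a, ι i, Finset.mem_image_of_mem _ hi, ?_⟩
        rw [map_mul, map_pow]
        ring
      | zero => rw [map_zero, mul_zero]; exact AddSubmonoid.zero_mem _
      | add a b _ _ ha hb => rw [map_add, mul_add]; exact AddSubmonoid.add_mem _ ha hb
  have huniq : ∀ z w w', rel z w → rel z w' → w = w' := by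
    rintro z w w' ⟨t, ht, y, h1, h2⟩ ⟨t', ht', y', h1', h2'⟩
    have h3 : t' ^ p * y = t ^ p * y' := by
      apply hinj
      change ι _ = ι _
      rw [map_mul, map_mul, map_pow, map_pow, ← h1, ← h1']
      ring
    have h4 : t' ^ p * ρ y = t ^ p * ρ y' := by rw [← hρ, ← hρ, h3]
    have h5 : ι t' ^ p * (ι t ^ p * w) = ι t' ^ p * (ι t ^ p * w') := by
      rw [h2]
      have h6 := congrArg ι h4
      rw [map_mul, map_mul, map_pow, map_pow] at h6
      rw [h6, ← h2']
      ring
    have h6 := ((hunit t' ht').pow p).mul_left_cancel h5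
    exact ((hunit t ht).pow p).mul_left_cancel h6
  choose g hg hg' using hex
  have hadd : ∀ z w z' w', rel z w → rel z' w' → rel (z + z') (w + w') := by
    rintro z w z' w' ⟨t, ht, y, h1, h2⟩ ⟨t', ht', y', h1', h2'⟩
    refine ⟨t * t', W.mul_mem ht ht', t' ^ p * y + t ^ p * y', ?_, ?_⟩
    · rw [map_mul, map_add, map_mul, map_mul, map_pow, map_pow, ← h1, ← h1']
      ring
    · rw [map_mul, map_add, map_add, hρ, hρ, map_mul, map_mul, map_pow, map_pow, ← h2, ← h2']
      ring
  have hmul : ∀ r z w, rel z w → rel (r ^ p * z) (r ^ p * w) := by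
    rintro r z w ⟨t, ht, y, h1, h2⟩
    obtain ⟨⟨a, u⟩, ha⟩ := IsLocalization.surj W r
    have ha' : r * ι (u : R₀) = ι a := ha
    refine ⟨t * u, W.mul_mem ht u.2, a ^ p * y, ?_, ?_⟩
    · rw [map_mul, map_mul, map_pow, ← ha', ← h1]
      ring
    · rw [hρ, map_mul, map_mul, map_pow, ← ha', ← h2]
      ring
  refine ⟨{ toFun := g, map_zero' := ?_, map_add' := ?_ }, ?_, ?_, s.image ι, fun x => hg' x⟩
  · refine huniq 0 _ _ (hg 0) ⟨1, W.one_mem, 0, ?_, ?_⟩ <;> simp
  · intro x y
    exact huniq _ _ _ (hg (x + y)) (hadd _ _ _ _ (hg x) (hg y))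
  · intro r x
    exact huniq _ _ _ (hg (r ^ p * x)) (hmul r _ _ (hg x))
  · refine huniq 1 _ _ (hg 1) ⟨1, W.one_mem, 1, ?_, ?_⟩
    · simp
    · simp [hρ1]

/-- Every domain essentially of finite type over a field satisfies `UnitInFinSummand`. -/
lemma unitInFinSummand_of_essFiniteType (K : Type*) [Field K] (R : Type*) [CommRing R] [IsDomain R]
    [CharP R p] [Algebra K R] [h : Algebra.EssFiniteType K R] : UnitInFinSummand p R := by
  have : CharP K p := ((algebraMap K R).charP_iff_charP p).2 inferInstance
  obtain ⟨s, hs⟩ := h.cond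
  have hft : Algebra.FiniteType K (Algebra.adjoin K (s : Set R)) :=
    (Subalgebra.fg_iff_finiteType _).1 ⟨s, rfl⟩
  obtain ⟨n, f, hf⟩ := Algebra.FiniteType.iff_quotient_mvPolynomial''.1 hft
  have h0 : UnitInFinSummand p (Algebra.adjoin K (s : Set R)) :=
    unitInFinSummand_of_surjective (K := K) f.toRingHom hf
  exact unitInFinSummand_localization h0
    ((IsUnit.submonoid R).comap (algebraMap (Algebra.adjoin K (s : Set R)) R)) R
    Subtype.val_injective

end Localize

/-- **MP_45223c_al, Q1, partial.** Let `R` be a domain of characteristic `p`, `I` the evaluation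
ideal of `R_perf` over `R`, `Z = V(I)` and `N` the non-Frobenius-split locus.
* A prime contains `I` iff it contains `{κ(1) : κ ∈ Hom_R(F_* R, R)}`.
* `Z = N` if `R` is `F`-finite.
* `Z = N` if `R` is essentially of finite type over a field (any field of characteristic `p`).
* `Z = N` if `R` satisfies `UnitInFinSummand`. -/
theorem _root_.Pool.Agent.Results.MP_45223c_al.FFinite.result (p : ℕ) [Fact p.Prime]
    (R : Type*) [CommRing R] [IsDomain R] [CharP R p] :
    (∀ P : PrimeSpectrum R, evalIdeal p R ≤ P.asIdeal ↔ traceIdeal p R ≤ P.asIdeal) ∧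
    ((frobenius R p).Finite → PrimeSpectrum.zeroLocus (evalIdeal p R : Set R) =
        {P | ¬ FrobeniusSplit p (Localization.AtPrime P.asIdeal)}) ∧
    (∀ (K : Type*) [Field K] [Algebra K R] [Algebra.EssFiniteType K R],
      PrimeSpectrum.zeroLocus (evalIdeal p R : Set R) =
        {P | ¬ FrobeniusSplit p (Localization.AtPrime P.asIdeal)}) ∧
    (UnitInFinSummand p R → PrimeSpectrum.zeroLocus (evalIdeal p R : Set R) =
        {P | ¬ FrobeniusSplit p (Localization.AtPrime P.asIdeal)}) := by
  have key : UnitInFinSummand p R → PrimeSpectrum.zeroLocus (evalIdeal p R : Set R) =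
        {P | ¬ FrobeniusSplit p (Localization.AtPrime P.asIdeal)} := by
    intro h
    ext P
    rw [PrimeSpectrum.mem_zeroLocus, SetLike.coe_subset_coe, Set.mem_ofPred_eq, le_prime_iff]
    constructor
    · intro h1 h2
      exact not_le_of_frobeniusSplit h P.asIdeal h2 h1
    · intro h1
      by_contra h2
      exact h1 (frobeniusSplit_of_not_le P.asIdeal h2)
  refine ⟨fun P => le_prime_iff P.asIdeal, ?_, ?_, key⟩
  · exact fun h => key (unitInFinSummand_of_finite h)
  · intro K _ _ _
    exact key (unitInFinSummand_of_essFiniteType K R)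

end Pool.Agent.Results.MP_45223c_al.FFinite
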